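import Mathlib

set_option autoImplicit false

/-!
Quasi-identities of associative algebras, the varieties `M(n)` and `S(n)`.
-/

namespace Pool.Agent.TH477.EQ

universe u

/-- A nonempty word in the variables `x_0, x_1, …`, given by the index of its first letter and the
list of the indices of the other letters. -/
abbrev Word := ℕ × List ℕ

/-- A noncommutative polynomial without constant term with rational coefficients, given as a finite
list of terms; the term `((a, b), w)` stands for `a / (b + 1) • w`. -/
abbrev Poly := List ((ℤ × ℕ) × Word)

/-- A quasi-identity `u_1 = 0 ∧ … ∧ u_k = 0 → u = 0`: the list of the `u_i`, and `u`. -/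
abbrev QuasiIdentity := List Poly × Poly

/-- The product of a nonempty list of elements of a ring without unit. -/
def lprod {A : Type*} [NonUnitalRing A] : List A → A
  | [] => 0
  | a :: l => l.foldl (fun x y => x * y) a

/-- The value of a nonempty word. -/
def word {A : Type*} [NonUnitalRing A] (v : ℕ → A) (w : Word) : A := lprod ((w.1 :: w.2).map v)

/-- The value of a polynomial (rational coefficients) at elements of an `F`-algebra. -/
def value (F : Type*) [Field F] {A : Type*} [NonUnitalRing A] [Module F A] (v : ℕ → A)
    (p : Poly) : A :=
  (p.map fun t => ((t.1.1 : F) / ((t.1.2 : F) + 1)) • word v t.2).sum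

/-- The value of a polynomial with coefficients in `F`, given as a list of terms. -/
def fvalue {F : Type*} [Field F] {A : Type*} [NonUnitalRing A] [Module F A] (v : ℕ → A)
    (p : List (F × Word)) : A :=
  (p.map fun t => t.1 • word v t.2).sum

/-- The value of the standard polynomial
`s_n(x_1, …, x_n) = ∑_σ sgn(σ) x_{σ(1)} ⋯ x_{σ(n)}`. -/
def standard {A : Type*} [NonUnitalRing A] {n : ℕ} (x : Fin n → A) : A :=
  ∑ σ : Equiv.Perm (Fin n), ((Equiv.Perm.sign σ : ℤˣ) : ℤ) • lprod (List.ofFn fun i => x (σ i))

/-- An associative algebra over `F`, not necessarily with a unit. -/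
structure AssocAlg (F : Type u) [Field F] : Type (u + 1) where
  carrier : Type u
  [ring : NonUnitalRing carrier]
  [module : Module F carrier]
  [tower : IsScalarTower F carrier carrier]
  [comm : SMulCommClass F carrier carrier]

attribute [instance] AssocAlg.ring AssocAlg.module AssocAlg.tower AssocAlg.comm

/-- The quasi-identity holds in the algebra. -/
def Holds {F : Type u} [Field F] (A : AssocAlg F) (Q : QuasiIdentity) : Prop :=
  ∀ v : ℕ → A.carrier, (∀ p ∈ Q.1, value F v p = 0) → value F v Q.2 = 0

/-- The variety `M(n)` generated by the algebra of `n × n` matrices: all algebras satisfying every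
polynomial identity (without constant term) of `M_n(F)`. -/
def MatrixVariety (F : Type u) [Field F] (n : ℕ) : Set (AssocAlg F) :=
  {A | ∀ p : List (F × Word), (∀ v : ℕ → Matrix (Fin n) (Fin n) F, fvalue v p = 0) →
    ∀ v : ℕ → A.carrier, fvalue v p = 0}

/-- The variety `S(n)` of all algebras satisfying the standard identity `s_n = 0`. -/
def StandardVariety (F : Type u) [Field F] (n : ℕ) : Set (AssocAlg F) :=
  {A | ∀ x : Fin n → A.carrier, standard x = 0}

end Pool.Agent.TH477.EQ
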