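import Mathlib
import Pool.Agent.Helper707.Num
import Pool.Agent.TH477.EQ.Defs

set_option autoImplicit false

/-!
The relations which simulate a generalised Collatz map, and the derivation of the conclusion for a
halting number in every associative algebra.
-/

namespace Pool.Agent.TH477.EQ

open Pool.Agent.Helper707.Rel

universe u

theorem lprod_map {A B : Type*} [NonUnitalRing A] [Ring B] (f : A → B)
    (hf : ∀ x y, f (x * y) = f x * f y) (a : A) (l : List A) :
    f (lprod (a :: l)) = ((a :: l).map f).prod := by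
  induction l generalizing a with
  | nil => simp [lprod]
  | cons b l ih =>
    have h : lprod (a :: b :: l) = lprod ((a * b) :: l) := rfl
    rw [h, ih]
    simp only [List.map_cons, List.prod_cons, hf, mul_assoc]

theorem word_map {A B : Type*} [NonUnitalRing A] [Ring B] (f : A → B)
    (hf : ∀ x y, f (x * y) = f x * f y) (v : ℕ → A) (w : Word) :
    f (word v w) = ((w.1 :: w.2).map fun i => f (v i)).prod := by
  unfold word
  rw [List.map_cons, lprod_map f hf, ← List.map_cons, List.map_map]
  rfl

/-- a list as a word -/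
def toWord (l : List ℕ) : Word := (l.headI, l.tail)

theorem toWord_cons {l : List ℕ} (h : l ≠ []) : (toWord l).1 :: (toWord l).2 = l := by
  cases l with
  | nil => exact absurd rfl h
  | cons a l => rfl

/-- a polynomial consisting of one word -/
def single (l : List ℕ) : Poly := [((1, 0), toWord l)]

/-- the difference of two words -/
def diff (l l' : List ℕ) : Poly := [((1, 0), toWord l), ((-1, 0), toWord l')]

section value

variable {F : Type*} [Field F] {A : Type*} [NonUnitalRing A] [Module F A] (v : ℕ → A)

theorem value_single (l : List ℕ) : value F v (single l) = word v (toWord l) := by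
  simp [value, single]

theorem value_diff (l l' : List ℕ) :
    value F v (diff l l') = word v (toWord l) - word v (toWord l') := by
  simp [value, diff, sub_eq_add_neg]

theorem word_map' {B : Type*} [Ring B] (f : A → B)
    (hf : ∀ x y, f (x * y) = f x * f y) {l : List ℕ} (hl : l ≠ []) :
    f (word v (toWord l)) = (l.map fun i => f (v i)).prod := by
  rw [word_map f hf, toWord_cons hl]

end value

/-- the relations -/
def rels (Y : Sys) : List Poly :=
  diff (List.replicate Y.m 2 ++ [4 + Y.m]) [4 + Y.m, 3] ::
    (List.range Y.m).flatMap fun r =>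
      [if Y.H r then single (0 :: (List.replicate r 2 ++ [4 + Y.m]))
        else diff (0 :: (List.replicate r 2 ++ [4 + Y.m]))
          (0 :: (List.replicate (Y.e r) 2 ++ [4 + r])),
       diff [4 + r, 3] (List.replicate (Y.a r) 2 ++ [4 + r]),
       diff [4 + r, 1] [4 + Y.m, 1]]

/-- the conclusion for the number `N` -/
def goal (Y : Sys) (N : ℕ) : Poly := single (0 :: (List.replicate N 2 ++ [4 + Y.m, 1]))

theorem pow_conv {U : Type*} [Ring U] {y q z : U} {m : ℕ} (h : y ^ m * q = q * z) (k : ℕ) :
    y ^ (m * k) * q = q * z ^ k := by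
  induction k with
  | zero => simp
  | succ k ih => rw [Nat.mul_succ, pow_add, mul_assoc, h, ← mul_assoc, ih, mul_assoc, ← pow_succ]

theorem pow_conv' {U : Type*} [Ring U] {y g z : U} {a : ℕ} (h : g * z = y ^ a * g) (k : ℕ) :
    g * z ^ k = y ^ (a * k) * g := (pow_conv h.symm k).symm

theorem halts_unital (Y : Sys) (hm : 0 < Y.m) {U : Type*} [Ring U] (c : ℕ → U)
    (h0 : c 2 ^ Y.m * c (4 + Y.m) = c (4 + Y.m) * c 3)
    (h1 : ∀ r < Y.m, Y.H r = true → c 0 * c 2 ^ r * c (4 + Y.m) = 0)
    (h2 : ∀ r < Y.m, Y.H r = false →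
      c 0 * c 2 ^ r * c (4 + Y.m) = c 0 * c 2 ^ Y.e r * c (4 + r))
    (h3 : ∀ r < Y.m, c (4 + r) * c 3 = c 2 ^ Y.a r * c (4 + r))
    (h4 : ∀ r < Y.m, c (4 + r) * c 1 = c (4 + Y.m) * c 1) {N : ℕ} (hN : Y.Halts N) :
    c 0 * c 2 ^ N * c (4 + Y.m) * c 1 = 0 := by
  have key : ∀ N : ℕ, c 0 * c 2 ^ N * c (4 + Y.m)
      = c 0 * c 2 ^ (N % Y.m) * c (4 + Y.m) * c 3 ^ (N / Y.m) := by
    intro N
    conv_lhs => rw [← Nat.mod_add_div N Y.m]
    rw [pow_add, mul_assoc, mul_assoc, pow_conv h0]
    simp only [mul_assoc]
  induction hN with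
  | halt N hH =>
    rw [key, h1 _ (Nat.mod_lt _ hm) hH]
    simp
  | step N hH _ ih =>
    rw [key, h2 _ (Nat.mod_lt _ hm) hH, mul_assoc (c 0 * _) (c (4 + N % Y.m)),
      pow_conv' (h3 _ (Nat.mod_lt _ hm)), mul_assoc (c 0) _ (_ * _),
      ← mul_assoc (c 2 ^ _) (c 2 ^ _), ← pow_add, mul_assoc, mul_assoc, h4 _ (Nat.mod_lt _ hm),
      add_comm]
    have : Y.next N = Y.a (N % Y.m) * (N / Y.m) + Y.e (N % Y.m) := rfl
    rw [← this]
    simpa only [mul_assoc] using ih

theorem halts_value (Y : Sys) (hm : 0 < Y.m) {F : Type u} [Field F] {A : Type u} [NonUnitalRing A]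
    [Module F A] [IsScalarTower F A A] [SMulCommClass F A A] (v : ℕ → A)
    (h : ∀ p ∈ rels Y, value F v p = 0) {N : ℕ} (hN : Y.Halts N) :
    value F v (goal Y N) = 0 := by
  set f : A → Unitization F A := fun x => (x : Unitization F A) with hf
  have hmul : ∀ x y, f (x * y) = f x * f y := fun x y => Unitization.inr_mul F x y
  have hinj : ∀ x, f x = 0 → x = 0 := fun x hx => Unitization.inr_injective (R := F) (by
    simpa using hx)
  have e : ∀ l l' : List ℕ, l ≠ [] → l' ≠ [] → diff l l' ∈ rels Y →
      (l.map fun i => f (v i)).prod = (l'.map fun i => f (v i)).prod := by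
    intro l l' hl hl' hmem
    have := h _ hmem
    rw [value_diff, sub_eq_zero] at this
    rw [← word_map' v f hmul hl, ← word_map' v f hmul hl', this]
  have hr : ∀ r < Y.m, ∀ p ∈ [if Y.H r then single (0 :: (List.replicate r 2 ++ [4 + Y.m]))
        else diff (0 :: (List.replicate r 2 ++ [4 + Y.m]))
          (0 :: (List.replicate (Y.e r) 2 ++ [4 + r])),
       diff [4 + r, 3] (List.replicate (Y.a r) 2 ++ [4 + r]),
       diff [4 + r, 1] [4 + Y.m, 1]], p ∈ rels Y := by
    intro r hr p hp
    unfold rels
    refine List.mem_cons_of_mem _ (List.mem_flatMap.2 ⟨r, List.mem_range.2 hr, hp⟩)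
  have main := halts_unital Y hm (fun i => f (v i)) ?_ ?_ ?_ ?_ ?_ hN
  · rw [goal, value_single]
    apply hinj
    rw [word_map' v f hmul (by simp)]
    simpa [List.prod_cons, List.map_replicate, List.prod_replicate, mul_assoc] using main
  · have := e (List.replicate Y.m 2 ++ [4 + Y.m]) [4 + Y.m, 3] (by simp) (by simp)
      (by unfold rels; exact List.mem_cons_self)
    simpa [List.prod_cons, List.map_replicate, List.prod_replicate, mul_assoc] using this
  · intro r hrm hH
    have := h (single (0 :: (List.replicate r 2 ++ [4 + Y.m]))) (hr r hrm _ (by simp [hH]))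
    rw [value_single] at this
    have h2 := word_map' v f hmul (l := 0 :: (List.replicate r 2 ++ [4 + Y.m])) (by simp)
    rw [this] at h2
    have h3 : f 0 = 0 := by simp [hf]
    rw [h3] at h2
    simpa [List.prod_cons, List.map_replicate, List.prod_replicate, mul_assoc] using h2.symm
  · intro r hrm hH
    have := e (0 :: (List.replicate r 2 ++ [4 + Y.m])) (0 :: (List.replicate (Y.e r) 2 ++ [4 + r]))
      (by simp) (by simp) (hr r hrm _ (by simp [hH]))
    simpa [List.prod_cons, List.map_replicate, List.prod_replicate, mul_assoc] using this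
  · intro r hrm
    have := e [4 + r, 3] (List.replicate (Y.a r) 2 ++ [4 + r]) (by simp) (by simp)
      (hr r hrm _ (by simp))
    simpa [List.prod_cons, List.map_replicate, List.prod_replicate, mul_assoc] using this
  · intro r hrm
    have := e [4 + r, 1] [4 + Y.m, 1] (by simp) (by simp) (hr r hrm _ (by simp))
    simpa [List.prod_cons, List.map_replicate, List.prod_replicate, mul_assoc] using this

end Pool.Agent.TH477.EQ
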