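import Mathlib
import Pool.Agent.TH477.EQ.Deriv
import Pool.Agent.H682R2.StdTri

set_option autoImplicit false

/-!
The model algebra: a quotient of the free algebra which factors through matrices over a
commutative ring, and is cut down by a linear functional.
-/

namespace Pool.Agent.TH477.EQ

open Pool.Agent.H682R2.StdNil Pool.Agent.H682R2.StdTri

universe u

section hom

variable {F : Type*} [Field F] {A B : Type*} [NonUnitalRing A] [Module F A] [NonUnitalRing B]
  [Module F B]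

omit [Field F] [Module F A] [Module F B] in
theorem lprod_hom (f : A → B) (h0 : f 0 = 0) (hf : ∀ x y, f (x * y) = f x * f y) (l : List A) :
    f (lprod l) = lprod (l.map f) := by
  cases l with
  | nil => exact h0
  | cons a l =>
    induction l generalizing a with
    | nil => rfl
    | cons b l ih =>
      have h1 : lprod (a :: b :: l) = lprod ((a * b) :: l) := rfl
      have h2 : lprod (((a :: b :: l)).map f) = lprod ((f a * f b) :: l.map f) := rfl
      rw [h1, h2, ih, List.map_cons, hf]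

theorem word_hom (f : A → B) (h0 : f 0 = 0) (hf : ∀ x y, f (x * y) = f x * f y) (v : ℕ → A)
    (w : Word) : f (word v w) = word (fun i => f (v i)) w := by
  unfold word
  rw [lprod_hom f h0 hf, List.map_map]
  rfl

theorem fvalue_hom (f : A →ₗ[F] B) (hf : ∀ x y, f (x * y) = f x * f y) (v : ℕ → A)
    (p : List (F × Word)) : f (fvalue v p) = fvalue (fun i => f (v i)) p := by
  unfold fvalue
  rw [map_list_sum, List.map_map]
  congr 1
  refine List.map_congr_left fun t _ => ?_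
  simp only [Function.comp_apply, map_smul]
  rw [word_hom f (map_zero f) hf]

theorem value_hom (f : A →ₗ[F] B) (hf : ∀ x y, f (x * y) = f x * f y) (v : ℕ → A)
    (p : Poly) : f (value F v p) = value F (fun i => f (v i)) p := by
  unfold value
  rw [map_list_sum, List.map_map]
  congr 1
  refine List.map_congr_left fun t _ => ?_
  simp only [Function.comp_apply, map_smul]
  rw [word_hom f (map_zero f) hf]

theorem standard_hom (f : A →ₗ[F] B) (hf : ∀ x y, f (x * y) = f x * f y) {n : ℕ} (x : Fin n → A) :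
    f (standard x) = standard (fun i => f (x i)) := by
  unfold standard
  rw [map_sum]
  refine Finset.sum_congr rfl fun σ _ => ?_
  rw [map_zsmul, lprod_hom f (map_zero f) hf, List.map_ofFn]
  rfl

end hom

theorem standard_eq_std {B : Type*} [Ring B] {n : ℕ} (hn : 0 < n) (x : Fin n → B) :
    standard x = std x := by
  obtain ⟨k, rfl⟩ : ∃ k, n = k + 1 := ⟨n - 1, by omega⟩
  unfold standard std
  refine Finset.sum_congr rfl fun σ _ => ?_
  rw [Units.smul_def]
  congr 1
  rw [List.ofFn_succ]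
  have := lprod_map (id : B → B) (fun _ _ => rfl) (x (σ 0))
    (List.ofFn fun i : Fin k => x (σ i.succ))
  rw [List.map_id] at this
  exact this

section model

variable {F : Type u} [Field F] {R : Type u} [CommRing R] [Algebra F R] {n : ℕ}

/-- the representation by matrices -/
noncomputable def lf (ρ : ℕ → Matrix (Fin n) (Fin n) R) :
    FreeAlgebra F ℕ →ₐ[F] Matrix (Fin n) (Fin n) R := FreeAlgebra.lift F ρ

/-- the ideal given by a functional -/
def idl (ρ : ℕ → Matrix (Fin n) (Fin n) R) (Φ : Matrix (Fin n) (Fin n) R →ₗ[F] F) :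
    Ideal (FreeAlgebra F ℕ) where
  carrier := {x | ∀ a b : FreeAlgebra F ℕ, Φ (lf ρ a * lf ρ x * lf ρ b) = 0}
  add_mem' := by
    intro x y hx hy a b
    rw [map_add, mul_add, add_mul, map_add, hx, hy, add_zero]
  zero_mem' := by
    intro a b
    rw [map_zero, mul_zero, zero_mul, map_zero]
  smul_mem' := by
    intro c x hx a b
    have h := hx (a * c) b
    rw [map_mul (lf ρ)] at h
    rw [smul_eq_mul, map_mul (lf ρ), ← mul_assoc]
    exact h

theorem mem_idl (ρ : ℕ → Matrix (Fin n) (Fin n) R) (Φ : Matrix (Fin n) (Fin n) R →ₗ[F] F)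
    (x : FreeAlgebra F ℕ) :
    x ∈ idl ρ Φ ↔ ∀ a b : FreeAlgebra F ℕ, Φ (lf ρ a * lf ρ x * lf ρ b) = 0 := Iff.rfl

instance idl_two (ρ : ℕ → Matrix (Fin n) (Fin n) R) (Φ : Matrix (Fin n) (Fin n) R →ₗ[F] F) :
    (idl ρ Φ).IsTwoSided where
  mul_mem_of_left := by
    intro x c hx
    rw [mem_idl] at hx ⊢
    intro a b
    have h := hx a (c * b)
    rw [map_mul (lf ρ)] at h
    rw [map_mul (lf ρ), ← mul_assoc, mul_assoc]
    exact h

/-- the free algebra without unit -/
def base (F : Type u) [Field F] : NonUnitalSubalgebra F (FreeAlgebra F ℕ) :=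
  NonUnitalAlgebra.adjoin F (Set.range (FreeAlgebra.ι F))

/-- the quotient map -/
noncomputable def qm (ρ : ℕ → Matrix (Fin n) (Fin n) R) (Φ : Matrix (Fin n) (Fin n) R →ₗ[F] F) :
    FreeAlgebra F ℕ →ₐ[F] (FreeAlgebra F ℕ ⧸ idl ρ Φ) := Ideal.Quotient.mkₐ F (idl ρ Φ)

theorem qm_eq_zero (ρ : ℕ → Matrix (Fin n) (Fin n) R) (Φ : Matrix (Fin n) (Fin n) R →ₗ[F] F)
    (x : FreeAlgebra F ℕ) :
    qm ρ Φ x = 0 ↔ ∀ a b : FreeAlgebra F ℕ, Φ (lf ρ a * lf ρ x * lf ρ b) = 0 := by
  rw [← mem_idl]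
  exact Ideal.Quotient.eq_zero_iff_mem

/-- the carrier of the model -/
noncomputable def nsub (ρ : ℕ → Matrix (Fin n) (Fin n) R)
    (Φ : Matrix (Fin n) (Fin n) R →ₗ[F] F) :
    NonUnitalSubalgebra F (FreeAlgebra F ℕ ⧸ idl ρ Φ) := (base F).map (qm ρ Φ)

/-- the model algebra -/
noncomputable def modelAlg (ρ : ℕ → Matrix (Fin n) (Fin n) R)
    (Φ : Matrix (Fin n) (Fin n) R →ₗ[F] F) : AssocAlg F where
  carrier := nsub ρ Φ

theorem mem_nsub (ρ : ℕ → Matrix (Fin n) (Fin n) R) (Φ : Matrix (Fin n) (Fin n) R →ₗ[F] F)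
    (y : nsub ρ Φ) : ∃ x ∈ base F, qm ρ Φ x = y := by
  obtain ⟨x, hx, h⟩ := NonUnitalSubalgebra.mem_map.1 y.2
  exact ⟨x, hx, h⟩

/-- the inclusion of the model -/
noncomputable def incl (ρ : ℕ → Matrix (Fin n) (Fin n) R)
    (Φ : Matrix (Fin n) (Fin n) R →ₗ[F] F) :
    nsub ρ Φ →ₗ[F] (FreeAlgebra F ℕ ⧸ idl ρ Φ) where
  toFun x := x.1
  map_add' _ _ := rfl
  map_smul' _ _ := rfl

theorem incl_mul (ρ : ℕ → Matrix (Fin n) (Fin n) R) (Φ : Matrix (Fin n) (Fin n) R →ₗ[F] F)
    (x y : nsub ρ Φ) : incl ρ Φ (x * y) = incl ρ Φ x * incl ρ Φ y := rfl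

theorem incl_inj (ρ : ℕ → Matrix (Fin n) (Fin n) R) (Φ : Matrix (Fin n) (Fin n) R →ₗ[F] F)
    {x : nsub ρ Φ} (h : incl ρ Φ x = 0) : x = 0 := Subtype.ext h

/-- the letters in the model -/
noncomputable def gv (ρ : ℕ → Matrix (Fin n) (Fin n) R)
    (Φ : Matrix (Fin n) (Fin n) R →ₗ[F] F) (i : ℕ) : nsub ρ Φ :=
  ⟨qm ρ Φ (FreeAlgebra.ι F i), NonUnitalSubalgebra.mem_map.2
    ⟨_, NonUnitalAlgebra.subset_adjoin F ⟨i, rfl⟩, rfl⟩⟩

theorem value_gv (ρ : ℕ → Matrix (Fin n) (Fin n) R) (Φ : Matrix (Fin n) (Fin n) R →ₗ[F] F)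
    (p : Poly) : value F (gv ρ Φ) p = 0 ↔
      ∀ a b : FreeAlgebra F ℕ, Φ (lf ρ a * value F ρ p * lf ρ b) = 0 := by
  have h1 : incl ρ Φ (value F (gv ρ Φ) p) = qm ρ Φ (value F (FreeAlgebra.ι F) p) := by
    rw [value_hom (incl ρ Φ) (incl_mul ρ Φ)]
    exact (value_hom (qm ρ Φ).toLinearMap (fun x y => map_mul (qm ρ Φ) x y)
      (FreeAlgebra.ι F) p).symm
  have h2 : lf ρ (value F (FreeAlgebra.ι F) p) = value F ρ p := by
    have := value_hom (lf (F := F) ρ).toLinearMap (fun x y => map_mul (lf ρ) x y)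
      (FreeAlgebra.ι F) p
    refine this.trans ?_
    congr 1
    funext i
    simp [lf]
  rw [← h2, ← qm_eq_zero]
  constructor
  · intro h
    rw [← h1, h, map_zero]
  · intro h
    exact incl_inj ρ Φ (h1.trans h)

theorem fvalue_model (ρ : ℕ → Matrix (Fin n) (Fin n) R) (Φ : Matrix (Fin n) (Fin n) R →ₗ[F] F)
    (p : List (F × Word)) (hp : ∀ v : ℕ → Matrix (Fin n) (Fin n) R, fvalue v p = 0)
    (v : ℕ → nsub ρ Φ) : fvalue v p = 0 := by
  choose x hx hxv using fun i => mem_nsub ρ Φ (v i)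
  apply incl_inj
  rw [fvalue_hom (incl ρ Φ) (incl_mul ρ Φ)]
  have h1 : (fun i => incl ρ Φ (v i)) = fun i => qm ρ Φ (x i) := funext fun i => (hxv i).symm
  rw [h1]
  refine (fvalue_hom (qm ρ Φ).toLinearMap (fun x y => map_mul (qm ρ Φ) x y) x p).symm.trans ?_
  refine (qm_eq_zero ρ Φ _).2 fun a b => ?_
  have h2 := fvalue_hom (lf (F := F) ρ).toLinearMap (fun x y => map_mul (lf ρ) x y) x p
  have h3 : lf ρ (fvalue x p) = 0 := h2.trans (hp _)
  rw [h3, mul_zero, zero_mul, map_zero]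

theorem standard_model (ρ : ℕ → Matrix (Fin n) (Fin n) R)
    (Φ : Matrix (Fin n) (Fin n) R →ₗ[F] F) {k : ℕ}
    (hp : ∀ x : Fin k → FreeAlgebra F ℕ, (∀ i, x i ∈ base F) →
      standard (fun i => lf ρ (x i)) = 0)
    (v : Fin k → nsub ρ Φ) : standard v = 0 := by
  choose x hx hxv using fun i => mem_nsub ρ Φ (v i)
  apply incl_inj
  rw [standard_hom (incl ρ Φ) (incl_mul ρ Φ)]
  have h1 : (fun i => incl ρ Φ (v i)) = fun i => qm ρ Φ (x i) := funext fun i => (hxv i).symm
  rw [h1]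
  refine (standard_hom (qm ρ Φ).toLinearMap (fun x y => map_mul (qm ρ Φ) x y) x).symm.trans ?_
  refine (qm_eq_zero ρ Φ _).2 fun a b => ?_
  have h2 := standard_hom (lf (F := F) ρ).toLinearMap (fun x y => map_mul (lf ρ) x y) x
  have h3 : lf ρ (standard x) = 0 := h2.trans (hp x hx)
  rw [h3, mul_zero, zero_mul, map_zero]

end model

section generic

variable {F : Type*} [Field F] [Infinite F] {R : Type*} [CommRing R] [Algebra F R] {n : ℕ}

/-- matrices over commutative algebras satisfy the identities of the matrices over the field -/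
theorem generic (p : List (F × Word)) (hp : ∀ v : ℕ → Matrix (Fin n) (Fin n) F, fvalue v p = 0)
    (v : ℕ → Matrix (Fin n) (Fin n) R) : fvalue v p = 0 := by
  classical
  let X : ℕ → Matrix (Fin n) (Fin n) (MvPolynomial (ℕ × Fin n × Fin n) F) :=
    fun i => Matrix.of fun a b => MvPolynomial.X (i, a, b)
  have hX : fvalue X p = 0 := by
    ext a b : 1
    rw [Matrix.zero_apply]
    apply MvPolynomial.funext
    intro c
    rw [map_zero]
    let e : MvPolynomial (ℕ × Fin n × Fin n) F →ₐ[F] F := MvPolynomial.aeval c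
    have h1 := fvalue_hom (e.mapMatrix (m := Fin n)).toLinearMap
      (fun x y => map_mul (e.mapMatrix (m := Fin n)) x y) X p
    have h2 : (e.mapMatrix (m := Fin n)).toLinearMap (fvalue X p) = 0 := h1.trans (hp _)
    have h3 := congrFun (congrFun h2 a) b
    have h4 : e (fvalue X p a b) = 0 := h3
    rw [← MvPolynomial.coe_aeval_eq_eval]
    exact h4
  let e : MvPolynomial (ℕ × Fin n × Fin n) F →ₐ[F] R :=
    MvPolynomial.aeval fun t => v t.1 t.2.1 t.2.2
  have h1 := fvalue_hom (e.mapMatrix (m := Fin n)).toLinearMap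
    (fun x y => map_mul (e.mapMatrix (m := Fin n)) x y) X p
  rw [hX, map_zero] at h1
  rw [h1]
  congr 1
  funext i
  ext a b : 1
  change v i a b = e (X i a b)
  simp [e, X]

end generic

end Pool.Agent.TH477.EQ
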