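import Mathlib
import Pool.Agent.TH477.EQ.Model

set_option autoImplicit false

/-!
The functional on polynomials and the verification of the relations.
-/

namespace Pool.Agent.TH477.EQ

open Pool.Agent.Helper707.Rel MvPolynomial

universe u

variable {F : Type u} [Field F]

/-- the linear functional with given values on the monomials -/
noncomputable def phi (κ : (Fin 5 →₀ ℕ) → F) : MvPolynomial (Fin 5) F →ₗ[F] F :=
  (MvPolynomial.basisMonomials (Fin 5) F).constr F κ

theorem phi_monomial (κ : (Fin 5 →₀ ℕ) → F) (d : Fin 5 →₀ ℕ) (c : F) :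
    phi κ (monomial d c) = c * κ d := by
  have h : monomial d c = c • (MvPolynomial.basisMonomials (Fin 5) F) d := by
    rw [MvPolynomial.coe_basisMonomials, MvPolynomial.smul_monomial, smul_eq_mul, mul_one]
  rw [h, map_smul, phi, Module.Basis.constr_basis, smul_eq_mul]

theorem phi_mul (κ : (Fin 5 →₀ ℕ) → F) (p q : MvPolynomial (Fin 5) F) (d : Fin 5 →₀ ℕ) :
    phi κ (p * monomial d 1 * q) = ∑ g ∈ p.support, ∑ g' ∈ q.support,
      p.coeff g * q.coeff g' * κ (g + d + g') := by
  conv_lhs => rw [← p.support_sum_monomial_coeff, ← q.support_sum_monomial_coeff]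
  rw [Finset.sum_mul, Finset.sum_mul, map_sum]
  refine Finset.sum_congr rfl fun g _ => ?_
  rw [Finset.mul_sum, map_sum]
  refine Finset.sum_congr rfl fun g' _ => ?_
  rw [monomial_mul, monomial_mul, phi_monomial, mul_one]

theorem phi_congr (κ : (Fin 5 →₀ ℕ) → F) (p q : MvPolynomial (Fin 5) F) (d d' : Fin 5 →₀ ℕ)
    (h : ∀ g ∈ p.support, ∀ g' ∈ q.support, κ (g + d + g') = κ (g + d' + g')) :
    phi κ (p * monomial d 1 * q) = phi κ (p * monomial d' 1 * q) := by
  rw [phi_mul, phi_mul]
  exact Finset.sum_congr rfl fun g hg => Finset.sum_congr rfl fun g' hg' => by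
    rw [h g hg g' hg']

theorem phi_zero (κ : (Fin 5 →₀ ℕ) → F) (p q : MvPolynomial (Fin 5) F) (d : Fin 5 →₀ ℕ)
    (h : ∀ g ∈ p.support, ∀ g' ∈ q.support, κ (g + d + g') = 0) :
    phi κ (p * monomial d 1 * q) = 0 := by
  rw [phi_mul]
  exact Finset.sum_eq_zero fun g hg => Finset.sum_eq_zero fun g' hg' => by
    rw [h g hg g' hg', mul_zero]

/-- the exponent vector with the given coordinates -/
noncomputable def ex (a b c d e : ℕ) : Fin 5 →₀ ℕ :=
  Finsupp.single 0 a + Finsupp.single 1 b + Finsupp.single 2 c + Finsupp.single 3 d +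
    Finsupp.single 4 e

@[simp] theorem ex_0 (a b c d e : ℕ) : ex a b c d e 0 = a := by simp [ex]
@[simp] theorem ex_1 (a b c d e : ℕ) : ex a b c d e 1 = b := by simp [ex]
@[simp] theorem ex_2 (a b c d e : ℕ) : ex a b c d e 2 = c := by simp [ex]
@[simp] theorem ex_3 (a b c d e : ℕ) : ex a b c d e 3 = d := by simp [ex]
@[simp] theorem ex_4 (a b c d e : ℕ) : ex a b c d e 4 = e := by simp [ex]

theorem mon_ex (a b c d e : ℕ) :
    (monomial (ex a b c d e) (1 : F)) = X 0 ^ a * X 1 ^ b * X 2 ^ c * X 3 ^ d * X 4 ^ e := by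
  simp only [ex, X_pow_eq_monomial, monomial_mul, mul_one]

/-- values of the functional on the monomials -/
noncomputable def kap (M : ℕ) (lam : ℕ → ℕ) (hh : ℕ → F) (g : Fin 5 →₀ ℕ) : F :=
  if g 0 = 1 ∧ g 1 = 1 ∧ M ≤ g 2 ∧ g 2 < 2 * M then hh (g 3 + lam (g 2 - M) * g 4) else 0

section letters

variable {n : ℕ}

/-- the letters as matrices -/
noncomputable def rho (F : Type u) [Field F] (M : ℕ) (v0 v1 v2 v3 : Fin n) :
    ℕ → Matrix (Fin n) (Fin n) (MvPolynomial (Fin 5) F)
  | 0 => Matrix.single v0 v1 (monomial (ex 1 0 0 0 0) 1)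
  | 1 => Matrix.single v2 v3 (monomial (ex 0 1 0 0 0) 1)
  | 2 => Matrix.single v1 v1 (monomial (ex 0 0 0 1 0) 1)
  | 3 => Matrix.single v2 v2 (monomial (ex 0 0 0 0 1) 1)
  | (j + 4) => Matrix.single v1 v2 (monomial (ex 0 0 (M + j) 0 0) 1)

theorem rho_letter (M : ℕ) (v0 v1 v2 v3 : Fin n) (j : ℕ) :
    rho F M v0 v1 v2 v3 (4 + j) = Matrix.single v1 v2 (monomial (ex 0 0 (M + j) 0 0) 1) := by
  rw [add_comm 4 j]; rfl

theorem single_pow_mul {R : Type*} [CommRing R] (i j : Fin n) (x y : R) (k : ℕ) :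
    Matrix.single i i y ^ k * Matrix.single i j x = Matrix.single i j (y ^ k * x) := by
  induction k with
  | zero => simp
  | succ k ih =>
    rw [pow_succ', mul_assoc, ih, Matrix.single_mul_single_same, pow_succ', mul_assoc]

theorem mul_single_pow {R : Type*} [CommRing R] (i j : Fin n) (x y : R) (k : ℕ) :
    Matrix.single i j x * Matrix.single j j y ^ k = Matrix.single i j (x * y ^ k) := by
  induction k with
  | zero => simp
  | succ k ih =>
    rw [pow_succ, ← mul_assoc, ih, Matrix.single_mul_single_same, pow_succ, mul_assoc]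

theorem mul_single_mul_apply {R : Type*} [CommRing R] (A B : Matrix (Fin n) (Fin n) R)
    (i j k l : Fin n) (x : R) : (A * Matrix.single i j x * B) k l = A k i * x * B j l := by
  rw [Matrix.mul_apply, Finset.sum_eq_single j]
  · rw [Matrix.mul_apply, Finset.sum_eq_single i]
    · rw [Matrix.single_apply_same]
    · intro b _ hb
      rw [Matrix.single_apply_of_row_ne hb.symm, mul_zero]
    · intro h; exact absurd (Finset.mem_univ _) h
  · intro b _ hb
    rw [Matrix.mul_apply, Finset.sum_eq_zero, zero_mul]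
    intro c _
    rw [Matrix.single_apply_of_col_ne _ _ hb.symm, mul_zero]
  · intro h; exact absurd (Finset.mem_univ _) h

theorem good_lf (ρ : ℕ → Matrix (Fin n) (Fin n) (MvPolynomial (Fin 5) F))
    (P : Fin n → Fin n → (Fin 5 →₀ ℕ) → Prop) (h0 : ∀ i, P i i 0)
    (hmul : ∀ i j k g h, P i j g → P j k h → P i k (g + h))
    (hρ : ∀ x i j, ∀ g ∈ (ρ x i j).support, P i j g) (y : FreeAlgebra F ℕ) :
    ∀ i j, ∀ g ∈ (lf ρ y i j).support, P i j g := by
  classical
  induction y using FreeAlgebra.induction with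
  | grade0 r =>
    intro i j g hg
    have h1 : lf ρ (algebraMap F (FreeAlgebra F ℕ) r) = algebraMap F _ r := by
      simp
    rw [h1, Matrix.algebraMap_matrix_apply] at hg
    split_ifs at hg with hij
    · subst hij
      rw [MvPolynomial.algebraMap_eq, MvPolynomial.mem_support_iff, MvPolynomial.coeff_C] at hg
      have : g = 0 := by
        by_contra hne
        exact hg (if_neg (fun h => hne h.symm))
      rw [this]; exact h0 _
    · simp at hg
  | grade1 x =>
    have h1 : lf ρ (FreeAlgebra.ι F x) = ρ x := by simp [lf]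
    rw [h1]
    exact hρ x
  | mul a b iha ihb =>
    intro i j g hg
    rw [map_mul, Matrix.mul_apply] at hg
    have h2 := MvPolynomial.support_sum hg
    rw [Finset.mem_biUnion] at h2
    obtain ⟨k, _, hk⟩ := h2
    have h3 := MvPolynomial.support_mul _ _ hk
    rw [Finset.mem_add] at h3
    obtain ⟨g1, hg1, g2, hg2, rfl⟩ := h3
    exact hmul i k j g1 g2 (iha i k g1 hg1) (ihb k j g2 hg2)
  | add a b iha ihb =>
    intro i j g hg
    rw [map_add, Matrix.add_apply] at hg
    have h2 := MvPolynomial.support_add hg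
    rw [Finset.mem_union] at h2
    rcases h2 with h2 | h2
    · exact iha i j g h2
    · exact ihb i j g h2

end letters

end Pool.Agent.TH477.EQ
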