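import Mathlib
import Pool.Agent.TH477.EQ.Poly

set_option autoImplicit false

/-!
The relations hold in the model, and the conclusion fails for a number which does not halt.
-/

namespace Pool.Agent.TH477.EQ

open Pool.Agent.Helper707.Rel MvPolynomial

universe u

variable (F : Type u) [Field F] {n : ℕ}

section words

variable (M : ℕ) (v0 v1 v2 v3 : Fin n)

theorem w_free (k j : ℕ) :
    ((List.replicate k 2 ++ [4 + j]).map (rho F M v0 v1 v2 v3)).prod
      = Matrix.single v1 v2 (monomial (ex 0 0 (M + j) k 0) 1) := by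
  rw [List.map_append, List.prod_append, List.map_replicate, List.prod_replicate,
    List.map_singleton, List.prod_singleton, rho_letter,
    show rho F M v0 v1 v2 v3 2 = Matrix.single v1 v1 (monomial (ex 0 0 0 1 0) 1) from rfl,
    single_pow_mul]
  congr 1
  simp only [mon_ex]
  ring

theorem w_z (j : ℕ) :
    (([4 + j, 3]).map (rho F M v0 v1 v2 v3)).prod
      = Matrix.single v1 v2 (monomial (ex 0 0 (M + j) 0 1) 1) := by
  rw [List.map_cons, List.map_singleton, List.prod_cons, List.prod_singleton, rho_letter,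
    show rho F M v0 v1 v2 v3 3 = Matrix.single v2 v2 (monomial (ex 0 0 0 0 1) 1) from rfl,
    Matrix.single_mul_single_same]
  congr 1
  simp only [mon_ex]
  ring

theorem w_a (k j : ℕ) :
    ((0 :: (List.replicate k 2 ++ [4 + j])).map (rho F M v0 v1 v2 v3)).prod
      = Matrix.single v0 v2 (monomial (ex 1 0 (M + j) k 0) 1) := by
  rw [List.map_cons, List.prod_cons, w_free,
    show rho F M v0 v1 v2 v3 0 = Matrix.single v0 v1 (monomial (ex 1 0 0 0 0) 1) from rfl,
    Matrix.single_mul_single_same]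
  congr 1
  simp only [mon_ex]
  ring

theorem w_b (j : ℕ) :
    (([4 + j, 1]).map (rho F M v0 v1 v2 v3)).prod
      = Matrix.single v1 v3 (monomial (ex 0 1 (M + j) 0 0) 1) := by
  rw [List.map_cons, List.map_singleton, List.prod_cons, List.prod_singleton, rho_letter,
    show rho F M v0 v1 v2 v3 1 = Matrix.single v2 v3 (monomial (ex 0 1 0 0 0) 1) from rfl,
    Matrix.single_mul_single_same]
  congr 1
  simp only [mon_ex]
  ring

theorem w_goal (k j : ℕ) :
    ((0 :: (List.replicate k 2 ++ [4 + j, 1])).map (rho F M v0 v1 v2 v3)).prod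
      = Matrix.single v0 v3 (monomial (ex 1 1 (M + j) k 0) 1) := by
  have : (0 :: (List.replicate k 2 ++ [4 + j, 1])) = (0 :: (List.replicate k 2 ++ [4 + j])) ++ [1] := by
    simp
  rw [this, List.map_append, List.prod_append, w_a, List.map_singleton, List.prod_singleton,
    show rho F M v0 v1 v2 v3 1 = Matrix.single v2 v3 (monomial (ex 0 1 0 0 0) 1) from rfl,
    Matrix.single_mul_single_same]
  congr 1
  simp only [mon_ex]
  ring

end words

/-- the functional -/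
noncomputable def Phi (v0 v3 : Fin n) (κ : (Fin 5 →₀ ℕ) → F) :
    Matrix (Fin n) (Fin n) (MvPolynomial (Fin 5) F) →ₗ[F] F :=
  (phi κ).comp (Matrix.entryLinearMap F (MvPolynomial (Fin 5) F) v0 v3)

theorem Phi_apply (v0 v3 : Fin n) (κ : (Fin 5 →₀ ℕ) → F)
    (A : Matrix (Fin n) (Fin n) (MvPolynomial (Fin 5) F)) : Phi F v0 v3 κ A = phi κ (A v0 v3) := rfl

theorem rel_diff (ρ : ℕ → Matrix (Fin n) (Fin n) (MvPolynomial (Fin 5) F)) (v0 v3 : Fin n)
    (κ : (Fin 5 →₀ ℕ) → F) {l l' : List ℕ} (hl : l ≠ []) (hl' : l' ≠ []) {i j : Fin n}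
    {d d' : Fin 5 →₀ ℕ} (e : (l.map ρ).prod = Matrix.single i j (monomial d 1))
    (e' : (l'.map ρ).prod = Matrix.single i j (monomial d' 1))
    (h : ∀ a b : FreeAlgebra F ℕ, ∀ g ∈ (lf ρ a v0 i).support, ∀ g' ∈ (lf ρ b j v3).support,
      κ (g + d + g') = κ (g + d' + g')) (a b : FreeAlgebra F ℕ) :
    Phi F v0 v3 κ (lf ρ a * value F ρ (diff l l') * lf ρ b) = 0 := by
  have h1 := word_map' (A := Matrix (Fin n) (Fin n) (MvPolynomial (Fin 5) F)) ρ id
    (fun _ _ => rfl) hl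
  have h2 := word_map' (A := Matrix (Fin n) (Fin n) (MvPolynomial (Fin 5) F)) ρ id
    (fun _ _ => rfl) hl'
  simp only [id_eq] at h1 h2
  rw [value_diff, h1, h2, e, e', mul_sub, sub_mul, map_sub, Phi_apply, Phi_apply,
    mul_single_mul_apply, mul_single_mul_apply, phi_congr κ _ _ d d' (h a b), sub_self]

theorem rel_single (ρ : ℕ → Matrix (Fin n) (Fin n) (MvPolynomial (Fin 5) F)) (v0 v3 : Fin n)
    (κ : (Fin 5 →₀ ℕ) → F) {l : List ℕ} (hl : l ≠ []) {i j : Fin n}
    {d : Fin 5 →₀ ℕ} (e : (l.map ρ).prod = Matrix.single i j (monomial d 1))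
    (h : ∀ a b : FreeAlgebra F ℕ, ∀ g ∈ (lf ρ a v0 i).support, ∀ g' ∈ (lf ρ b j v3).support,
      κ (g + d + g') = 0) (a b : FreeAlgebra F ℕ) :
    Phi F v0 v3 κ (lf ρ a * value F ρ (single l) * lf ρ b) = 0 := by
  have h1 := word_map' (A := Matrix (Fin n) (Fin n) (MvPolynomial (Fin 5) F)) ρ id
    (fun _ _ => rfl) hl
  simp only [id_eq] at h1
  rw [value_single, h1, e, Phi_apply, mul_single_mul_apply, phi_zero κ _ _ d (h a b)]

/-- the support conditions -/
structure Good (M : ℕ) (ρ : ℕ → Matrix (Fin n) (Fin n) (MvPolynomial (Fin 5) F))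
    (v0 v1 v2 v3 : Fin n) : Prop where
  S : ∀ (y : FreeAlgebra F ℕ) (i j : Fin n), ∀ g ∈ (lf ρ y i j).support, g 2 = 0 ∨ M ≤ g 2
  H1 : ∀ y : FreeAlgebra F ℕ, ∀ g ∈ (lf ρ y v0 v0).support,
    (g 0 = 0 ∧ g 1 = 0 ∧ g 2 = 0 ∧ g 3 = 0 ∧ g 4 = 0) ∨ 1 ≤ g 0
  H2 : ∀ y : FreeAlgebra F ℕ, ∀ g ∈ (lf ρ y v2 v3).support,
    (g 0 = 0 ∧ g 1 = 1 ∧ g 2 = 0 ∧ g 3 = 0) ∨ 1 ≤ g 0
  H3 : ∀ y : FreeAlgebra F ℕ, ∀ g ∈ (lf ρ y v0 v1).support,
    (g 0 = 1 ∧ g 1 = 0 ∧ g 2 = 0 ∧ g 4 = 0) ∨ 1 ≤ g 1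
  H4 : ∀ y : FreeAlgebra F ℕ, ∀ g ∈ (lf ρ y v3 v3).support,
    (g 0 = 0 ∧ g 1 = 0 ∧ g 2 = 0 ∧ g 3 = 0 ∧ g 4 = 0) ∨ 1 ≤ g 1

/-- the rates of the letters -/
def lam (Y : Sys) (i : ℕ) : ℕ := if i = Y.m then Y.m else Y.a i

open Classical in
/-- `0` for a halting number and `1` otherwise -/
noncomputable def hh (Y : Sys) (N : ℕ) : F := if Y.Halts N then 0 else 1

theorem hh_next (Y : Sys) {N : ℕ} (h : Y.H (N % Y.m) = false) : hh F Y N = hh F Y (Y.next N) := by
  have : Y.Halts N ↔ Y.Halts (Y.next N) := by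
    constructor
    · intro h1
      cases h1 with
      | halt _ h2 => rw [h] at h2; exact absurd h2 (by decide)
      | step _ _ h3 => exact h3
    · intro h1; exact .step N h h1
  unfold hh
  rw [this]

theorem hh_halt (Y : Sys) {N : ℕ} (h : Y.H (N % Y.m) = true) : hh F Y N = 0 := by
  unfold hh
  rw [if_pos (.halt N h)]

section rel

variable {F} (Y : Sys) {v0 v1 v2 v3 : Fin n}

theorem kap_eq (M : ℕ) (la : ℕ → ℕ) (f : ℕ → F) {g g' : Fin 5 →₀ ℕ} (h0 : g 0 = g' 0)
    (h1 : g 1 = g' 1) (h2 : (M ≤ g 2 ∧ g 2 < 2 * M) ↔ (M ≤ g' 2 ∧ g' 2 < 2 * M))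
    (h : g 0 = 1 → g 1 = 1 → M ≤ g 2 → g 2 < 2 * M →
      f (g 3 + la (g 2 - M) * g 4) = f (g' 3 + la (g' 2 - M) * g' 4)) :
    kap M la f g = kap M la f g' := by
  unfold kap
  rw [← h0, ← h1]
  by_cases hc : g 0 = 1 ∧ g 1 = 1 ∧ M ≤ g 2 ∧ g 2 < 2 * M
  · rw [if_pos hc, if_pos ⟨hc.1, hc.2.1, h2.1 hc.2.2⟩, h hc.1 hc.2.1 hc.2.2.1 hc.2.2.2]
  · rw [if_neg hc, if_neg (fun h3 => hc ⟨h3.1, h3.2.1, h2.2 h3.2.2⟩)]

theorem rels_model (hG : Good F (Y.m + 1) (rho F (Y.m + 1) v0 v1 v2 v3) v0 v1 v2 v3) (p : Poly)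
    (hp : p ∈ rels Y) (a b : FreeAlgebra F ℕ) :
    Phi F v0 v3 (kap (Y.m + 1) (lam Y) (hh F Y))
      (lf (rho F (Y.m + 1) v0 v1 v2 v3) a * value F (rho F (Y.m + 1) v0 v1 v2 v3) p *
        lf (rho F (Y.m + 1) v0 v1 v2 v3) b) = 0 := by
  set ρ := rho F (Y.m + 1) v0 v1 v2 v3 with hρ
  unfold rels at hp
  rw [List.mem_cons, List.mem_flatMap] at hp
  rcases hp with rfl | ⟨r, hr, hp⟩
  · refine rel_diff F ρ v0 v3 _ (by simp) (by simp) (w_free F _ v0 v1 v2 v3 _ _)
      (w_z F _ v0 v1 v2 v3 _) ?_ a b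
    intro a b g hg g' hg'
    have s1 := hG.S a _ _ g hg
    have s2 := hG.S b _ _ g' hg'
    apply kap_eq
    · simp
    · simp
    · simp
    · intro _ _ h3 h4
      simp only [Finsupp.add_apply, ex_2] at h3 h4
      have e1 : g 2 = 0 := by omega
      have e2 : g' 2 = 0 := by omega
      simp only [Finsupp.add_apply, ex_2, ex_3, ex_4, e1, e2, zero_add, add_zero,
        Nat.add_sub_cancel_left, lam, if_true]
      congr 1
      ring
  · rw [List.mem_range] at hr
    simp only [List.mem_cons, List.not_mem_nil, or_false] at hp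
    have hrm : ¬ r = Y.m := by omega
    rcases hp with rfl | rfl | rfl
    · by_cases hH : Y.H r = true
      · rw [if_pos hH]
        refine rel_single F ρ v0 v3 _ (by simp) (w_a F _ v0 v1 v2 v3 _ _) ?_ a b
        intro a b g hg g' hg'
        have s1 := hG.H1 a g hg
        have s2 := hG.H2 b g' hg'
        unfold kap
        split_ifs with hc
        · simp only [Finsupp.add_apply, ex_0, ex_1, ex_2] at hc
          have e1 : g 0 = 0 ∧ g 1 = 0 ∧ g 2 = 0 ∧ g 3 = 0 ∧ g 4 = 0 := by omega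
          have e2 : g' 0 = 0 ∧ g' 1 = 1 ∧ g' 2 = 0 ∧ g' 3 = 0 := by omega
          simp only [Finsupp.add_apply, ex_2, ex_3, ex_4, e1, e2, zero_add, add_zero,
            Nat.add_sub_cancel_left, lam, if_true]
          refine hh_halt F Y ?_
          rw [Nat.add_mul_mod_self_left, Nat.mod_eq_of_lt hr]
          exact hH
        · rfl
      · rw [if_neg hH]
        refine rel_diff F ρ v0 v3 _ (by simp) (by simp) (w_a F _ v0 v1 v2 v3 _ _)
          (w_a F _ v0 v1 v2 v3 _ _) ?_ a b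
        intro a b g hg g' hg'
        have s1 := hG.H1 a g hg
        have s2 := hG.H2 b g' hg'
        have t1 := hG.S a _ _ g hg
        have t2 := hG.S b _ _ g' hg'
        apply kap_eq
        · simp
        · simp
        · simp only [Finsupp.add_apply, ex_2]
          omega
        · intro h1 h2 h3 h4
          simp only [Finsupp.add_apply, ex_0, ex_1, ex_2] at h1 h2 h3 h4
          have e1 : g 0 = 0 ∧ g 1 = 0 ∧ g 2 = 0 ∧ g 3 = 0 ∧ g 4 = 0 := by omega
          have e2 : g' 0 = 0 ∧ g' 1 = 1 ∧ g' 2 = 0 ∧ g' 3 = 0 := by omega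
          simp only [Finsupp.add_apply, ex_2, ex_3, ex_4, e1, e2, zero_add, add_zero,
            Nat.add_sub_cancel_left, lam, if_true, hrm, if_false]
          have hm0 : 0 < Y.m := by omega
          have hmod : (r + Y.m * g' 4) % Y.m = r := by
            rw [Nat.add_mul_mod_self_left, Nat.mod_eq_of_lt hr]
          rw [hh_next F Y (by rw [hmod]; simpa using hH)]
          congr 1
          unfold Sys.next
          rw [hmod, Nat.add_mul_div_left _ _ hm0, Nat.div_eq_of_lt hr, zero_add, add_comm]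
    · refine rel_diff F ρ v0 v3 _ (by simp) (by simp) (w_z F _ v0 v1 v2 v3 _)
        (w_free F _ v0 v1 v2 v3 _ _) ?_ a b
      intro a b g hg g' hg'
      have s1 := hG.S a _ _ g hg
      have s2 := hG.S b _ _ g' hg'
      apply kap_eq
      · simp
      · simp
      · simp
      · intro _ _ h3 h4
        simp only [Finsupp.add_apply, ex_2] at h3 h4
        have e1 : g 2 = 0 := by omega
        have e2 : g' 2 = 0 := by omega
        simp only [Finsupp.add_apply, ex_2, ex_3, ex_4, e1, e2, zero_add, add_zero,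
          Nat.add_sub_cancel_left, lam, hrm, if_false]
        congr 1
        ring
    · refine rel_diff F ρ v0 v3 _ (by simp) (by simp) (w_b F _ v0 v1 v2 v3 _)
        (w_b F _ v0 v1 v2 v3 _) ?_ a b
      intro a b g hg g' hg'
      have s1 := hG.H3 a g hg
      have s2 := hG.H4 b g' hg'
      have t1 := hG.S a _ _ g hg
      have t2 := hG.S b _ _ g' hg'
      apply kap_eq
      · simp
      · simp
      · simp only [Finsupp.add_apply, ex_2]
        omega
      · intro h1 h2 h3 h4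
        simp only [Finsupp.add_apply, ex_0, ex_1, ex_2] at h1 h2 h3 h4
        have e1 : g 0 = 1 ∧ g 1 = 0 ∧ g 2 = 0 ∧ g 4 = 0 := by omega
        have e2 : g' 0 = 0 ∧ g' 1 = 0 ∧ g' 2 = 0 ∧ g' 3 = 0 ∧ g' 4 = 0 := by omega
        simp only [Finsupp.add_apply, ex_2, ex_3, ex_4, e1, e2, zero_add, add_zero,
          mul_zero]

theorem goal_model {N : ℕ} (hN : ¬ Y.Halts N) :
    value F (gv (rho F (Y.m + 1) v0 v1 v2 v3)
      (Phi F v0 v3 (kap (Y.m + 1) (lam Y) (hh F Y)))) (goal Y N) ≠ 0 := by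
  intro h
  have h1 := (value_gv _ _ _).1 h 1 1
  have h2 := word_map' (A := Matrix (Fin n) (Fin n) (MvPolynomial (Fin 5) F))
    (rho F (Y.m + 1) v0 v1 v2 v3) id (fun _ _ => rfl)
    (l := 0 :: (List.replicate N 2 ++ [4 + Y.m, 1])) (by simp)
  simp only [id_eq] at h2
  rw [map_one, one_mul, mul_one, goal, value_single, h2, w_goal, Phi_apply,
    Matrix.single_apply_same, phi_monomial, one_mul] at h1
  unfold kap at h1
  rw [if_pos (by simp; omega)] at h1
  simp [hh, hN] at h1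

theorem model_fails (hG : Good F (Y.m + 1) (rho F (Y.m + 1) v0 v1 v2 v3) v0 v1 v2 v3) {N : ℕ}
    (hN : ¬ Y.Halts N) :
    ¬ Holds (modelAlg (rho F (Y.m + 1) v0 v1 v2 v3)
      (Phi F v0 v3 (kap (Y.m + 1) (lam Y) (hh F Y)))) (rels Y, goal Y N) := by
  intro h
  refine goal_model (F := F) Y (v0 := v0) (v1 := v1) (v2 := v2) (v3 := v3) hN
    (h (gv _ _) fun p hp => ?_)
  exact (value_gv _ _ _).2 (rels_model Y hG p hp)

end rel

end Pool.Agent.TH477.EQ
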