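import Mathlib
import Pool.Agent.TH477.EQ.Rel

set_option autoImplicit false

/-!
The support conditions for the two representations.
-/

namespace Pool.Agent.TH477.EQ

open MvPolynomial

universe u

variable (F : Type u) [Field F]

/-- the supports in the cyclic representation by `3 × 3` matrices -/
def P3 (M : ℕ) (i j : Fin 3) (g : Fin 5 →₀ ℕ) : Prop :=
  (g 2 = 0 ∨ M ≤ g 2) ∧
  (i = 0 → j = 0 → (g 0 = 0 ∧ g 1 = 0 ∧ g 2 = 0 ∧ g 3 = 0 ∧ g 4 = 0) ∨ (1 ≤ g 0 ∧ 1 ≤ g 1)) ∧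
  (i = 0 → j = 1 → (g 0 = 1 ∧ g 1 = 0 ∧ g 2 = 0 ∧ g 4 = 0) ∨ (1 ≤ g 0 ∧ 1 ≤ g 1)) ∧
  (i = 0 → j = 2 → 1 ≤ g 0) ∧
  (i = 1 → j = 0 → 1 ≤ g 1) ∧
  (i = 1 → j = 1 → (g 0 = 0 ∧ g 1 = 0 ∧ g 2 = 0 ∧ g 4 = 0) ∨ (1 ≤ g 0 ∧ 1 ≤ g 1)) ∧
  (i = 2 → j = 0 → (g 0 = 0 ∧ g 1 = 1 ∧ g 2 = 0 ∧ g 3 = 0) ∨ (1 ≤ g 0 ∧ 1 ≤ g 1)) ∧
  (i = 2 → j = 1 → (1 ≤ g 0 ∧ 1 ≤ g 1)) ∧
  (i = 2 → j = 2 → (g 0 = 0 ∧ g 1 = 0 ∧ g 2 = 0 ∧ g 3 = 0) ∨ (1 ≤ g 0 ∧ 1 ≤ g 1))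

theorem P3_zero (M : ℕ) (i : Fin 3) : P3 M i i 0 := by
  unfold P3
  fin_cases i <;> simp

theorem P3_add (M : ℕ) (i j k : Fin 3) (g h : Fin 5 →₀ ℕ) (h1 : P3 M i j g) (h2 : P3 M j k h) :
    P3 M i k (g + h) := by
  unfold P3 at *
  simp only [Finsupp.add_apply]
  fin_cases i <;> fin_cases j <;> fin_cases k <;>
    simp at h1 h2 ⊢ <;> omega

/-- the supports in the representation by upper triangular `4 × 4` matrices -/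
def P4 (M : ℕ) (i j : Fin 4) (g : Fin 5 →₀ ℕ) : Prop :=
  (g 2 = 0 ∨ M ≤ g 2) ∧ i ≤ j ∧
  (i = 0 → j = 0 → (g 0 = 0 ∧ g 1 = 0 ∧ g 2 = 0 ∧ g 3 = 0 ∧ g 4 = 0)) ∧
  (i = 0 → j = 1 → (g 0 = 1 ∧ g 1 = 0 ∧ g 2 = 0 ∧ g 4 = 0)) ∧
  (i = 1 → j = 1 → (g 0 = 0 ∧ g 1 = 0 ∧ g 2 = 0 ∧ g 4 = 0)) ∧
  (i = 2 → j = 2 → (g 0 = 0 ∧ g 1 = 0 ∧ g 2 = 0 ∧ g 3 = 0)) ∧
  (i = 2 → j = 3 → (g 0 = 0 ∧ g 1 = 1 ∧ g 2 = 0 ∧ g 3 = 0)) ∧
  (i = 3 → j = 3 → (g 0 = 0 ∧ g 1 = 0 ∧ g 2 = 0 ∧ g 3 = 0 ∧ g 4 = 0))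

theorem P4_zero (M : ℕ) (i : Fin 4) : P4 M i i 0 := by
  unfold P4
  fin_cases i <;> simp

theorem P4_add (M : ℕ) (i j k : Fin 4) (g h : Fin 5 →₀ ℕ) (h1 : P4 M i j g) (h2 : P4 M j k h) :
    P4 M i k (g + h) := by
  unfold P4 at *
  refine ⟨?_, le_trans h1.2.1 h2.2.1, ?_⟩
  · have a := h1.1
    have b := h2.1
    simp only [Finsupp.add_apply]
    omega
  · obtain ⟨-, a, h1⟩ := h1
    obtain ⟨-, b, h2⟩ := h2
    simp only [Finsupp.add_apply]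
    fin_cases i <;> fin_cases j <;> first | (exact absurd a (by decide)) | skip
    all_goals fin_cases k <;> first | (exact absurd b (by decide)) | skip
    all_goals simp at h1 h2 ⊢
    all_goals omega

variable {n : ℕ}

theorem rho_support (M : ℕ) (v0 v1 v2 v3 : Fin n) (P : Fin n → Fin n → (Fin 5 →₀ ℕ) → Prop)
    (h0 : P v0 v1 (ex 1 0 0 0 0)) (h1 : P v2 v3 (ex 0 1 0 0 0)) (h2 : P v1 v1 (ex 0 0 0 1 0))
    (h3 : P v2 v2 (ex 0 0 0 0 1)) (h4 : ∀ j, P v1 v2 (ex 0 0 (M + j) 0 0)) (x : ℕ) (i j : Fin n)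
    (g : Fin 5 →₀ ℕ) (hg : g ∈ (rho F M v0 v1 v2 v3 x i j).support) : P i j g := by
  have key : ∀ (a b : Fin n) (d : Fin 5 →₀ ℕ), P a b d →
      g ∈ (Matrix.single a b (monomial d (1 : F)) i j).support → P i j g := by
    intro a b d hd hgg
    rw [Matrix.single_apply] at hgg
    split_ifs at hgg with hc
    · have := MvPolynomial.support_monomial_subset hgg
      rw [Finset.mem_singleton] at this
      rw [this, ← hc.1, ← hc.2]; exact hd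
    · simp at hgg
  match x with
  | 0 => exact key _ _ _ h0 hg
  | 1 => exact key _ _ _ h1 hg
  | 2 => exact key _ _ _ h2 hg
  | 3 => exact key _ _ _ h3 hg
  | (k + 4) => exact key _ _ _ (h4 k) hg

theorem lf_P3 (M : ℕ) (y : FreeAlgebra F ℕ) (i j : Fin 3) (g : Fin 5 →₀ ℕ)
    (hg : g ∈ (lf (rho F M (0 : Fin 3) 1 2 0) y i j).support) : P3 M i j g := by
  refine good_lf _ (P3 M) (P3_zero M) (P3_add M) ?_ y i j g hg
  refine rho_support F M 0 1 2 0 (P3 M) ?_ ?_ ?_ ?_ ?_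
  · simp [P3]
  · simp [P3]
  · simp [P3]
  · simp [P3]
  · intro j; simp [P3]

theorem lf_P4 (M : ℕ) (y : FreeAlgebra F ℕ) (i j : Fin 4) (g : Fin 5 →₀ ℕ)
    (hg : g ∈ (lf (rho F M (0 : Fin 4) 1 2 3) y i j).support) : P4 M i j g := by
  refine good_lf _ (P4 M) (P4_zero M) (P4_add M) ?_ y i j g hg
  refine rho_support F M 0 1 2 3 (P4 M) ?_ ?_ ?_ ?_ ?_
  · simp [P4]
  · simp [P4]
  · simp [P4]
  · simp [P4]
  · intro j; simp [P4]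

theorem good3 (M : ℕ) : Good F M (rho F M (0 : Fin 3) 1 2 0) 0 1 2 0 where
  S y i j g hg := (lf_P3 F M y i j g hg).1
  H1 y g hg := by
    have := lf_P3 F M y _ _ g hg
    simp [P3] at this
    omega
  H2 y g hg := by
    have := lf_P3 F M y _ _ g hg
    simp [P3] at this
    omega
  H3 y g hg := by
    have := lf_P3 F M y _ _ g hg
    simp [P3] at this
    omega
  H4 y g hg := by
    have := lf_P3 F M y _ _ g hg
    simp [P3] at this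
    omega

theorem good4 (M : ℕ) : Good F M (rho F M (0 : Fin 4) 1 2 3) 0 1 2 3 where
  S y i j g hg := (lf_P4 F M y i j g hg).1
  H1 y g hg := by
    have := lf_P4 F M y _ _ g hg
    simp [P4] at this
    omega
  H2 y g hg := by
    have := lf_P4 F M y _ _ g hg
    simp [P4] at this
    omega
  H3 y g hg := by
    have := lf_P4 F M y _ _ g hg
    simp [P4] at this
    omega
  H4 y g hg := by
    have := lf_P4 F M y _ _ g hg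
    simp [P4] at this
    omega

end Pool.Agent.TH477.EQ
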