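import Mathlib
import Pool.Agent.TH477.EQ.Good

set_option autoImplicit false

/-!
The standard identities of degree at least six for upper triangular `4 × 4` matrices whose first
and last diagonal entries vanish.
-/

namespace Pool.Agent.TH477.EQ

open Pool.Agent.H682R2.StdNil Pool.Agent.H682R2.StdTri MvPolynomial

universe u

section tri

variable {R : Type*} [CommRing R]

/-- depth of an upper triangular matrix -/
def Dq (d : ℕ) (A : Matrix (Fin 4) (Fin 4) R) : Prop := ∀ i j : Fin 4, (j : ℕ) < i + d → A i j = 0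

theorem Dq.mul {d e : ℕ} {A B : Matrix (Fin 4) (Fin 4) R} (hA : Dq d A) (hB : Dq e B) :
    Dq (d + e) (A * B) := by
  intro i j h
  rw [Matrix.mul_apply]
  refine Finset.sum_eq_zero fun k _ => ?_
  by_cases h1 : (k : ℕ) < i + d
  · rw [hA i k h1, zero_mul]
  · rw [hB k j (by omega), mul_zero]

theorem Dq.prod {n : ℕ} (f : Fin n → Matrix (Fin 4) (Fin 4) R) (d : Fin n → ℕ)
    (h : ∀ i, Dq (d i) (f i)) : Dq (∑ i, d i) (List.ofFn f).prod := by
  induction n with
  | zero =>
    intro i j hij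
    simp only [Finset.univ_eq_empty, Finset.sum_empty, add_zero] at hij
    rw [List.ofFn_zero, List.prod_nil, Matrix.one_apply_ne]
    intro h; subst h; omega
  | succ n ih =>
    rw [List.ofFn_succ, List.prod_cons, Fin.sum_univ_succ]
    exact (h 0).mul (ih _ _ fun i => h i.succ)

theorem eq_zero_of_Dq {A : Matrix (Fin 4) (Fin 4) R} {d : ℕ} (h : Dq d A) (hd : 4 ≤ d) : A = 0 := by
  ext i j
  exact h i j (by have := j.2; omega)

theorem std_eq_zero_of_depth4 {n : ℕ} (y : Fin n → Matrix (Fin 4) (Fin 4) R) (d : Fin n → ℕ)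
    (h : ∀ i, Dq (d i) (y i)) (hd : 4 ≤ ∑ i, d i) : std y = 0 := by
  unfold std
  refine Finset.sum_eq_zero fun σ _ => ?_
  have h1 := Dq.prod (fun i => y (σ i)) (fun i => d (σ i)) fun i => h _
  rw [eq_zero_of_Dq h1, smul_zero]
  rw [Equiv.sum_comp σ d]
  exact hd

/-- upper triangular with vanishing first and last diagonal entries -/
structure Tr (A : Matrix (Fin 4) (Fin 4) R) : Prop where
  up : ∀ i j : Fin 4, j < i → A i j = 0
  h0 : A 0 0 = 0
  h3 : A 3 3 = 0

theorem Tr.zero : Tr (0 : Matrix (Fin 4) (Fin 4) R) := ⟨fun _ _ _ => rfl, rfl, rfl⟩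

theorem Tr.add {A B : Matrix (Fin 4) (Fin 4) R} (hA : Tr A) (hB : Tr B) : Tr (A + B) where
  up i j h := by rw [Matrix.add_apply, hA.up i j h, hB.up i j h, add_zero]
  h0 := by rw [Matrix.add_apply, hA.h0, hB.h0, add_zero]
  h3 := by rw [Matrix.add_apply, hA.h3, hB.h3, add_zero]

theorem Tr.mul {A B : Matrix (Fin 4) (Fin 4) R} (hA : Tr A) (hB : Tr B) : Tr (A * B) where
  up i j h := by
    rw [Matrix.mul_apply]
    refine Finset.sum_eq_zero fun k _ => ?_
    by_cases hk : k < i
    · rw [hA.up i k hk, zero_mul]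
    · rw [hB.up k j (by omega), mul_zero]
  h0 := by
    rw [Matrix.mul_apply, Fin.sum_univ_four, hA.h0, hB.up 1 0 (by decide), hB.up 2 0 (by decide),
      hB.up 3 0 (by decide)]
    simp
  h3 := by
    rw [Matrix.mul_apply, Fin.sum_univ_four, hB.h3, hA.up 3 0 (by decide), hA.up 3 1 (by decide),
      hA.up 3 2 (by decide)]
    simp

/-- the components of a matrix -/
def cmp (A : Matrix (Fin 4) (Fin 4) R) (k : Fin 3) : Matrix (Fin 4) (Fin 4) R :=
  if k = 2 then Matrix.of fun i j => if i < j then A i j else 0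
  else if k = 0 then A 1 1 • Matrix.single 1 1 1
  else A 2 2 • Matrix.single 2 2 1

theorem cmp_sum {A : Matrix (Fin 4) (Fin 4) R} (h : Tr A) : ∑ k, cmp A k = A := by
  have h0 := h.h0
  have h3 := h.h3
  have hl := h.up
  ext i j
  rw [Matrix.sum_apply, Fin.sum_univ_three]
  fin_cases i <;> fin_cases j <;>
    simp [cmp, h0, h3, hl]

theorem cmp_two_depth (A : Matrix (Fin 4) (Fin 4) R) : Dq 1 (cmp A 2) := by
  intro i j h
  simp only [cmp, if_true, Matrix.of_apply]
  rw [if_neg]
  intro h2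
  have : (i : ℕ) < j := h2
  omega

theorem cmp_depth (A : Matrix (Fin 4) (Fin 4) R) (k : Fin 3) : Dq 0 (cmp A k) := by
  intro i j h
  have hij : i ≠ j := by rintro rfl; omega
  have hji : ¬ (i < j) := by
    intro h2
    have : (i : ℕ) < j := h2
    omega
  unfold cmp
  split_ifs with h1 h2
  · simp [hji]
  · have a : ¬ ((1 : Fin 4) = i ∧ (1 : Fin 4) = j) := by rintro ⟨rfl, rfl⟩; exact hij rfl
    simp only [Matrix.smul_apply, Matrix.single_apply, a, if_false, smul_zero]
  · have a : ¬ ((2 : Fin 4) = i ∧ (2 : Fin 4) = j) := by rintro ⟨rfl, rfl⟩; exact hij rfl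
    simp only [Matrix.smul_apply, Matrix.single_apply, a, if_false, smul_zero]

theorem std_tr {n : ℕ} (hn : 6 ≤ n) (y : Fin n → Matrix (Fin 4) (Fin 4) R)
    (hy : ∀ i, Tr (y i)) : std y = 0 := by
  classical
  have h1 : y = fun i => ∑ k, cmp (y i) k := by
    funext i; exact (cmp_sum (hy i)).symm
  rw [← stdAlt_apply (R := R), h1]
  have h2 := MultilinearMap.map_sum (stdAlt R (Matrix (Fin 4) (Fin 4) R) n).toMultilinearMap
    (fun i k => cmp (y i) k)
  refine h2.trans (Finset.sum_eq_zero fun r _ => ?_)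
  change stdAlt R (Matrix (Fin 4) (Fin 4) R) n (fun i => cmp (y i) (r i)) = 0
  rw [stdAlt_apply]
  set d : Fin n → ℕ := fun i => if r i = 2 then 1 else 0 with hd
  by_cases h5 : 4 ≤ ∑ i, d i
  · refine std_eq_zero_of_depth4 _ d (fun i => ?_) h5
    simp only [hd]
    split_ifs with h
    · rw [h]; exact cmp_two_depth _
    · exact cmp_depth _ _
  · have h6 : ∃ i j, i ≠ j ∧ r i = r j ∧ r i ≠ 2 := by
      set S := Finset.univ.filter fun i => r i ≠ 2 with hS
      have hcard : (Finset.univ.filter fun i => r i = 2).card = ∑ i, d i := by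
        rw [Finset.card_filter]
      have hsum : (Finset.univ.filter fun i => r i = 2).card + S.card = n := by
        rw [hS, Finset.card_filter_add_card_filter_not]
        simp
      have hmap : ∀ i ∈ S, r i ∈ (Finset.univ.erase 2 : Finset (Fin 3)) := by
        intro i hi
        have : r i ≠ 2 := by simpa [hS] using hi
        simpa using this
      have hc2 : (Finset.univ.erase (2 : Fin 3)).card = 2 := by simp
      obtain ⟨i, hi, j, hj, hne, he⟩ :=
        Finset.exists_ne_map_eq_of_card_lt_of_maps_to (by omega) hmap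
      exact ⟨i, j, hne, he, by simpa [hS] using hi⟩
    obtain ⟨i, j, hij, hr, h4⟩ := h6
    refine std_eq_zero_of_swap _ hij fun x => ?_
    rw [← hr]
    unfold cmp
    rw [if_neg h4, if_neg h4]
    split_ifs
    · exact smul_swap _ _ _ _
    · exact smul_swap _ _ _ _

end tri

theorem lf_tr (F : Type u) [Field F] (M : ℕ) (y : FreeAlgebra F ℕ) (hy : y ∈ base F) :
    Tr (lf (rho F M (0 : Fin 4) 1 2 3) y) := by
  have hup : ∀ y : FreeAlgebra F ℕ, ∀ i j : Fin 4, j < i →
      lf (rho F M (0 : Fin 4) 1 2 3) y i j = 0 := by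
    intro y i j h
    rw [← MvPolynomial.support_eq_empty, Finset.eq_empty_iff_forall_notMem]
    intro g hg
    have := (lf_P4 F M y i j g hg).2.1
    exact absurd this (not_le.2 h)
  suffices h03 : lf (rho F M (0 : Fin 4) 1 2 3) y 0 0 = 0 ∧
      lf (rho F M (0 : Fin 4) 1 2 3) y 3 3 = 0 from ⟨hup y, h03.1, h03.2⟩
  unfold base at hy
  induction hy using NonUnitalAlgebra.adjoin_induction with
  | mem x hx =>
    obtain ⟨i, rfl⟩ := hx
    have h1 : lf (rho F M (0 : Fin 4) 1 2 3) (FreeAlgebra.ι F i) = rho F M (0 : Fin 4) 1 2 3 i := by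
      simp [lf]
    rw [h1]
    match i with
    | 0 => simp [rho]
    | 1 => simp [rho]
    | 2 => simp [rho]
    | 3 => simp [rho]
    | (k + 4) => simp [rho]
  | zero => simp
  | add x y _ _ hx hy =>
    rw [map_add, Matrix.add_apply, Matrix.add_apply, hx.1, hx.2, hy.1, hy.2]
    simp
  | mul x y _ _ hx hy =>
    have := Tr.mul ⟨hup x, hx.1, hx.2⟩ ⟨hup y, hy.1, hy.2⟩
    rw [map_mul]
    exact ⟨this.h0, this.h3⟩
  | smul r x _ hx =>
    rw [map_smul, Matrix.smul_apply, Matrix.smul_apply, hx.1, hx.2]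
    simp

end Pool.Agent.TH477.EQ
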