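import Mathlib
import Pool.Agent.TH477.EQ.Std4

set_option autoImplicit false

/-!
The reductions.
-/

namespace Pool.Agent.TH477.EQ

open Pool.Agent.Helper707.Rel

universe u

theorem goal_primrec (Y : Sys) (S p : ℕ) : Primrec fun x : ℕ => goal Y (S * p ^ x) := by
  have hpow : Primrec fun x : ℕ => p ^ x :=
    (Primrec₂.unpaired'.1 Nat.Primrec.pow : Primrec₂ fun a b : ℕ => a ^ b).comp
      (Primrec.const p) Primrec.id
  have hN : Primrec fun x : ℕ => S * p ^ x := Primrec.nat_mul.comp (Primrec.const S) hpow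
  have hrep : Primrec fun x : ℕ => List.replicate (S * p ^ x) (2 : ℕ) := by
    have : Primrec fun x : ℕ => (List.range (S * p ^ x)).map fun _ => (2 : ℕ) :=
      Primrec.list_map (Primrec.list_range.comp hN) (Primrec.const 2)
    refine this.of_eq fun x => ?_
    rw [List.map_const', List.length_range]
  have hl : Primrec fun x : ℕ => List.replicate (S * p ^ x) 2 ++ [4 + Y.m, 1] :=
    Primrec.list_append.comp hrep (Primrec.const _)
  have hw : Primrec fun x : ℕ => ((((1 : ℤ), (0 : ℕ)), ((0 : ℕ),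
      List.replicate (S * p ^ x) 2 ++ [4 + Y.m, 1])) : (ℤ × ℕ) × Word) :=
    Primrec.pair (Primrec.const _) (Primrec.pair (Primrec.const _) hl)
  exact (Primrec.list_cons.comp hw (Primrec.const [])).of_eq fun x => rfl

theorem core {F : Type u} [Field F] (Y : Sys) (hm : 0 < Y.m) (S p : ℕ)
    (hund : ¬ ComputablePred fun x : ℕ => Y.Halts (S * p ^ x)) (K : Set (AssocAlg F))
    (hK : ∀ N, ¬ Y.Halts N → ∃ A ∈ K, ¬ Holds A (rels Y, goal Y N)) :
    ¬ ComputablePred fun c : Poly => ∀ A ∈ K, Holds A (rels Y, c) := by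
  intro hc
  apply hund
  refine ComputablePred.computable_of_manyOneReducible
    ⟨fun x => goal Y (S * p ^ x), (goal_primrec Y S p).to_comp, fun x => ?_⟩ hc
  constructor
  · intro h A _ v hv
    exact halts_value Y hm v hv h
  · intro h
    by_contra hN
    obtain ⟨A, hA, hA'⟩ := hK _ hN
    exact hA' (h A hA)

theorem uniform {F : Type u} [Field F] (H : List Poly) (K : Set (AssocAlg F))
    (h : ¬ ComputablePred fun c : Poly => ∀ A ∈ K, Holds A (H, c)) :
    ¬ ComputablePred fun Q : QuasiIdentity => ∀ A ∈ K, Holds A Q := by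
  intro hc
  apply h
  exact ComputablePred.computable_of_manyOneReducible
    ⟨fun c => (H, c), Computable.pair (Computable.const H) Computable.id, fun c => Iff.rfl⟩ hc

theorem matrix_mono (F : Type u) [Field F] (k : ℕ) :
    MatrixVariety F 3 ⊆ MatrixVariety F (3 + k) := by
  intro A hA p hp
  refine hA p fun v => ?_
  let e : Fin 3 ⊕ Fin k ≃ Fin (3 + k) := finSumFinEquiv
  let f : Matrix (Fin 3) (Fin 3) F →ₗ[F] Matrix (Fin (3 + k)) (Fin (3 + k)) F :=
    { toFun := fun B => (Matrix.fromBlocks B 0 0 0).submatrix e.symm e.symm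
      map_add' := by
        intro B C
        have h : (Matrix.fromBlocks (B + C) 0 0 0 : Matrix (Fin 3 ⊕ Fin k) (Fin 3 ⊕ Fin k) F)
            = Matrix.fromBlocks B 0 0 0 + Matrix.fromBlocks C 0 0 0 := by
          rw [Matrix.fromBlocks_add]
          simp
        rw [h]
        rfl
      map_smul' := by
        intro r B
        have h : (Matrix.fromBlocks (r • B) 0 0 0 : Matrix (Fin 3 ⊕ Fin k) (Fin 3 ⊕ Fin k) F)
            = r • Matrix.fromBlocks B 0 0 0 := by
          rw [Matrix.fromBlocks_smul]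
          simp
        rw [h]
        rfl }
  have hf : ∀ x y, f (x * y) = f x * f y := by
    intro x y
    change (Matrix.fromBlocks (x * y) 0 0 0).submatrix e.symm e.symm =
      (Matrix.fromBlocks x 0 0 0).submatrix e.symm e.symm *
        (Matrix.fromBlocks y 0 0 0).submatrix e.symm e.symm
    rw [Matrix.submatrix_mul_equiv, Matrix.fromBlocks_multiply]
    simp
  have h1 : f (fvalue v p) = 0 := (fvalue_hom f hf v p).trans (hp _)
  ext i j
  have h2 := congrFun (congrFun h1 (e (Sum.inl i))) (e (Sum.inl j))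
  have h3 : f (fvalue v p) (e (Sum.inl i)) (e (Sum.inl j)) = fvalue v p i j := by
    change (Matrix.fromBlocks (fvalue v p) 0 0 0).submatrix e.symm e.symm (e (Sum.inl i))
      (e (Sum.inl j)) = _
    simp
  rw [h3] at h2
  exact h2

theorem fails3 (F : Type u) [Field F] [CharZero F] (Y : Sys) (N : ℕ) (hN : ¬ Y.Halts N) :
    ∃ A ∈ MatrixVariety F 3, ¬ Holds A (rels Y, goal Y N) := by
  refine ⟨_, ?_, model_fails (F := F) Y (good3 F (Y.m + 1)) hN⟩
  intro p hp
  exact fvalue_model _ _ p (generic p hp)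

theorem fails6 (F : Type u) [Field F] (Y : Sys) (n : ℕ) (hn : 6 ≤ n) (N : ℕ)
    (hN : ¬ Y.Halts N) : ∃ A ∈ StandardVariety F n, ¬ Holds A (rels Y, goal Y N) := by
  refine ⟨_, ?_, model_fails (F := F) Y (good4 F (Y.m + 1)) hN⟩
  intro v
  refine standard_model _ _ (fun x hx => ?_) v
  rw [standard_eq_std (by omega)]
  exact std_tr hn _ fun i => lf_tr F (Y.m + 1) (x i) (hx i)

theorem main : ∃ H : List Poly, ∀ (F : Type u) [Field F] [CharZero F],
    (∀ K : Set (AssocAlg F), MatrixVariety F 3 ⊆ K →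
      ¬ ComputablePred fun c : Poly => ∀ A ∈ K, Holds A (H, c)) ∧
    (∀ n : ℕ, 3 ≤ n → ¬ ComputablePred fun c : Poly => ∀ A ∈ MatrixVariety F n, Holds A (H, c)) ∧
    (∀ (K : Set (AssocAlg F)) (n : ℕ), 6 ≤ n → StandardVariety F n ⊆ K →
      ¬ ComputablePred fun c : Poly => ∀ A ∈ K, Holds A (H, c)) := by
  obtain ⟨Y, S, p, hm, hund⟩ := Pool.Agent.Helper707.Num.exists_undecidable_sys
  refine ⟨rels Y, fun F _ _ => ?_⟩
  have h1 : ∀ K : Set (AssocAlg F), MatrixVariety F 3 ⊆ K →
      ¬ ComputablePred fun c : Poly => ∀ A ∈ K, Holds A (rels Y, c) := by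
    intro K hK
    refine core Y hm S p hund K fun N hN => ?_
    obtain ⟨A, hA, hA'⟩ := fails3 F Y N hN
    exact ⟨A, hK hA, hA'⟩
  refine ⟨h1, fun n hn => ?_, fun K n hn hK => ?_⟩
  · obtain ⟨k, rfl⟩ := Nat.exists_eq_add_of_le hn
    exact h1 _ (matrix_mono F k)
  · refine core Y hm S p hund K fun N hN => ?_
    obtain ⟨A, hA, hA'⟩ := fails6 F Y n hn N hN
    exact ⟨A, hK hA, hA'⟩

end Pool.Agent.TH477.EQ
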